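import Pool.Agent.W120.WM.Defs
import Pool.Agent.H370R2.Local
import Pool.Agent.H370R2.DirGood

/-! Task WM-CNT: the number of zeros in a window. -/

set_option autoImplicit false

open Complex Filter Topology Set

namespace Pool.Agent.W563.WM

open Pool.Agent.W120.WM

theorem zeros_finite (K : Set ℂ) (hK : IsCompact K) :
    {v : ℂ | riemannZeta₁ v = 0 ∧ v ∈ K}.Finite := by
  by_contra hinf
  have hinf' : {v : ℂ | riemannZeta₁ v = 0 ∧ v ∈ K}.Infinite := hinf
  obtain ⟨x, _, hx⟩ := hinf'.exists_accPt_of_subset_isCompact hK (fun v hv => hv.2)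
  rw [accPt_iff_frequently_nhdsNE] at hx
  have hFan : AnalyticOnNhd ℂ riemannZeta₁ univ :=
    fun z _ => differentiable_riemannZeta₁.analyticAt z
  have h1 := hFan.eqOn_zero_of_preconnected_of_frequently_eq_zero isPreconnected_univ (mem_univ x)
    (hx.mono (fun y hy => hy.1))
  have h2 : riemannZeta₁ 1 = 0 := h1 (mem_univ 1)
  rw [riemannZeta₁_one] at h2
  exact one_ne_zero h2

theorem small : ∃ c : ℕ, ∀ Z : Finset ℂ, (∀ ρ ∈ Z, ρ ∈ NT) → (∀ ρ ∈ Z, |ρ.im| ≤ 7) →
    Z.card ≤ c := by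
  have hfin := zeros_finite (Icc (0 : ℝ) 1 ×ℂ Icc (-7 : ℝ) 7)
    (isCompact_Icc.reProdIm isCompact_Icc)
  refine ⟨hfin.toFinset.card, fun Z h1 h2 => Finset.card_le_card fun ρ hρ => ?_⟩
  rw [hfin.mem_toFinset]
  obtain ⟨hz, h3, h4⟩ := h1 ρ hρ
  have hne : ρ ≠ 1 := by
    rintro rfl
    simp at h4
  have h5 : riemannZeta ρ = (ρ - 1)⁻¹ * riemannZeta₁ ρ := riemannZeta_eq_inv_sub_mul hne
  have h6 : riemannZeta₁ ρ = 0 := by
    rw [h5] at hz
    rcases mul_eq_zero.1 hz with h | h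
    · exact absurd (inv_eq_zero.1 h) (sub_ne_zero.2 hne)
    · exact h
  exact ⟨h6, ⟨h3.le, h4.le⟩, abs_le.1 (h2 ρ hρ)⟩

theorem upper : ∃ C : ℝ, 0 < C ∧ ∀ (Z : Finset ℂ), (∀ ρ ∈ Z, ρ ∈ NT) → ∀ t : ℝ, 0 ≤ t →
    ((Z.filter (fun ρ => |ρ.im - t| ≤ 1)).card : ℝ) ≤ C * Real.log (3 + t) := by
  classical
  obtain ⟨c, hc⟩ := small
  obtain ⟨C, hC, hcount⟩ := H370.zcount H370.good_zeta
  have hlog3 : 1 ≤ Real.log 3 := by
    rw [Real.le_log_iff_exp_le (by norm_num)]
    linarith [Real.exp_one_lt_d9]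
  refine ⟨c + 2 * C, by positivity, ?_⟩
  intro Z hZ t ht
  have hlog : 1 ≤ Real.log (3 + t) := hlog3.trans (Real.log_le_log (by norm_num) (by linarith))
  rcases le_or_gt t 5 with h5 | h5
  · have h1 : (Z.filter (fun ρ => |ρ.im - t| ≤ 1)).card ≤ c := by
      refine hc _ (fun ρ hρ => hZ ρ (Finset.mem_filter.1 hρ).1) fun ρ hρ => ?_
      have h2 := abs_le.1 (Finset.mem_filter.1 hρ).2
      rw [abs_le]
      constructor <;> linarith [h2.1, h2.2]
    calc ((Z.filter (fun ρ => |ρ.im - t| ≤ 1)).card : ℝ) ≤ c := by exact_mod_cast h1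
      _ ≤ (c + 2 * C) * 1 := by linarith
      _ ≤ _ := mul_le_mul_of_nonneg_left hlog (by positivity)
  · have f1 := H370.zset_finite H370.good_zeta (t - 1) (t + 1) (by linarith)
    have f2 := H370.zset_finite H370.good_zeta (t - 1 - 1) (t - 1 + 1) (by linarith)
    have hsub : Z.filter (fun ρ => |ρ.im - t| ≤ 1) ⊆ f1.toFinset ∪ f2.toFinset := by
      intro ρ hρ
      obtain ⟨h1, h2⟩ := Finset.mem_filter.1 hρ
      obtain ⟨hz, h3, h4⟩ := hZ ρ h1
      rw [abs_le] at h2
      rw [Finset.mem_union, f1.mem_toFinset, f2.mem_toFinset]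
      rcases eq_or_lt_of_le h2.1 with h6 | h6
      · right
        exact ⟨h3, h4, by linarith, by linarith, hz⟩
      · left
        exact ⟨h3, h4, by linarith, by linarith, hz⟩
    have c1 := H370.Loc.card_le_NN H370.good_zeta (t - 1) (t + 1) (by linarith)
    have c2 := H370.Loc.card_le_NN H370.good_zeta (t - 1 - 1) (t - 1 + 1) (by linarith)
    have d1 := hcount t (by linarith)
    have d2 := hcount (t - 1) (by linarith)
    have l1 : Real.log t ≤ Real.log (3 + t) := Real.log_le_log (by linarith) (by linarith)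
    have l2 : Real.log (t - 1) ≤ Real.log (3 + t) := Real.log_le_log (by linarith) (by linarith)
    have e1 : ((Z.filter (fun ρ => |ρ.im - t| ≤ 1)).card : ℝ) ≤
        (f1.toFinset.card : ℝ) + f2.toFinset.card := by
      exact_mod_cast (Finset.card_le_card hsub).trans (Finset.card_union_le _ _)
    have e2 : (f1.toFinset.card : ℝ) ≤ H370.NN riemannZeta (t - 1) (t + 1) := by
      exact_mod_cast c1
    have e3 : (f2.toFinset.card : ℝ) ≤ H370.NN riemannZeta (t - 1 - 1) (t - 1 + 1) := by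
      exact_mod_cast c2
    have m1 := mul_le_mul_of_nonneg_left l1 hC.le
    have m2 := mul_le_mul_of_nonneg_left l2 hC.le
    have m3 : 0 ≤ (c : ℝ) * Real.log (3 + t) := by positivity
    linarith

theorem t_cnt : T_CNT := by
  classical
  obtain ⟨C, hC, hup⟩ := upper
  refine ⟨C, hC, ?_⟩
  intro Z hZ t
  rcases le_or_gt 0 t with ht | ht
  · rw [abs_of_nonneg ht]
    exact hup Z hZ t ht
  · rw [abs_of_neg ht]
    have h1 := hup (Z.image (starRingEnd ℂ)) ?_ (-t) (by linarith)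
    · refine le_trans ?_ h1
      have h2 : (Z.filter (fun ρ => |ρ.im - t| ≤ 1)).card ≤
          ((Z.image (starRingEnd ℂ)).filter (fun ρ => |ρ.im - -t| ≤ 1)).card := by
        refine Finset.card_le_card_of_injOn (starRingEnd ℂ) ?_
          ((starRingEnd ℂ).injective.injOn)
        intro ρ hρ
        obtain ⟨h3, h4⟩ := Finset.mem_filter.1 (Finset.mem_coe.1 hρ)
        rw [Finset.mem_coe, Finset.mem_filter]
        refine ⟨Finset.mem_image_of_mem _ h3, ?_⟩
        rw [Complex.conj_im, show -ρ.im - -t = -(ρ.im - t) by ring, abs_neg]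
        exact h4
      exact_mod_cast h2
    · intro ρ hρ
      obtain ⟨σ, h3, rfl⟩ := Finset.mem_image.1 hρ
      obtain ⟨hz, h4, h5⟩ := hZ σ h3
      refine ⟨?_, ?_, ?_⟩
      · rw [riemannZeta_conj, hz, map_zero]
      · rw [Complex.conj_re]; exact h4
      · rw [Complex.conj_re]; exact h5

end Pool.Agent.W563.WM
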